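import Pool.Agent.W975.CB.Ms
import Pool.Agent.W366.CB.Lam
import Pool.Agent.W337.CB.Mecke
import Pool.Agent.W761.CC.Stms

/-!
# CC-JAS: Jastrow vectors in the continuum
-/

set_option autoImplicit false

open MeasureTheory
open scoped ENNReal

namespace Pool.Agent.W216.CC

open Pool.Agent.W761.CB Pool.Agent.W761.CC

section alg
variable {X : Type} (Fc : X → X → ℝ) (z : ℝ)

/-- the amplitude of a list -/
noncomputable def al : List X → ℝ
  | [] => 1
  | x :: l => √z * (l.map (Fc x)).prod * al l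

theorem al_perm (hs : ∀ x y, Fc x y = Fc y x) {l l' : List X} (h : l.Perm l') :
    al Fc z l = al Fc z l' := by
  induction h with
  | nil => rfl
  | cons x h ih =>
    simp only [al]
    rw [ih, (h.map (Fc x)).prod_eq]
  | swap x y l =>
    simp only [al, List.map_cons, List.prod_cons]
    rw [hs y x]
    ring
  | trans _ _ ih1 ih2 => rw [ih1, ih2]

/-- the amplitude of a configuration -/
noncomputable def am (hs : ∀ x y, Fc x y = Fc y x) (S : Multiset X) : ℝ :=
  Quotient.lift (al Fc z) (fun _ _ h => al_perm Fc z hs h) S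

/-- the interaction with a configuration -/
noncomputable def PF (x : X) (S : Multiset X) : ℝ := (S.map (Fc x)).prod

variable (hs : ∀ x y, Fc x y = Fc y x)

theorem am_zero : am Fc z hs 0 = 1 := rfl

theorem am_cons (x : X) (S : Multiset X) :
    am Fc z hs (x ::ₘ S) = √z * PF Fc x S * am Fc z hs S := by
  refine Quotient.inductionOn S fun l => ?_
  rfl

variable (hF : ∀ x y, 0 ≤ Fc x y ∧ Fc x y ≤ 1)

include hF in
theorem PF_nonneg (x : X) (S : Multiset X) : 0 ≤ PF Fc x S := by
  unfold PF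
  induction S using Multiset.induction_on with
  | empty => simp
  | cons u S ih =>
    rw [Multiset.map_cons, Multiset.prod_cons]
    exact mul_nonneg (hF _ _).1 ih

include hF in
theorem PF_le (x : X) (S : Multiset X) : PF Fc x S ≤ 1 := by
  unfold PF
  induction S using Multiset.induction_on with
  | empty => simp
  | cons u S ih =>
    rw [Multiset.map_cons, Multiset.prod_cons]
    have h0 : 0 ≤ (S.map (Fc x)).prod := PF_nonneg Fc hF x S
    exact mul_le_one₀ (hF _ _).2 h0 ih

include hF in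
theorem am_nonneg (S : Multiset X) : 0 ≤ am Fc z hs S := by
  induction S using Multiset.induction_on with
  | empty => rw [am_zero]; exact zero_le_one
  | cons u S ih =>
    rw [am_cons]
    exact mul_nonneg (mul_nonneg (Real.sqrt_nonneg z) (PF_nonneg Fc hF u S)) ih

include hF in
theorem am_le (S : Multiset X) : am Fc z hs S ≤ √z ^ Multiset.card S := by
  induction S using Multiset.induction_on with
  | empty => rw [am_zero]; simp
  | cons u S ih =>
    rw [am_cons, Multiset.card_cons, pow_succ, mul_comm (√z ^ _)]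
    refine mul_le_mul ?_ ih (am_nonneg Fc z hs hF S) (Real.sqrt_nonneg z)
    exact mul_le_of_le_one_right (Real.sqrt_nonneg z) (PF_le Fc hF u S)

include hF in
/-- difference of products -/
theorem prod_diff (x y : X) (S : Multiset X) :
    |PF Fc x S - PF Fc y S| ≤ (S.map fun u => |Fc x u - Fc y u|).sum := by
  induction S using Multiset.induction_on with
  | empty => simp [PF]
  | cons u S ih =>
    have e1 : PF Fc x (u ::ₘ S) = Fc x u * PF Fc x S := by
      unfold PF; rw [Multiset.map_cons, Multiset.prod_cons]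
    have e2 : PF Fc y (u ::ₘ S) = Fc y u * PF Fc y S := by
      unfold PF; rw [Multiset.map_cons, Multiset.prod_cons]
    rw [e1, e2, Multiset.map_cons, Multiset.sum_cons]
    have e : Fc x u * PF Fc x S - Fc y u * PF Fc y S =
        (Fc x u - Fc y u) * PF Fc x S + Fc y u * (PF Fc x S - PF Fc y S) := by ring
    rw [e]
    refine (abs_add_le _ _).trans (add_le_add ?_ ?_)
    · rw [abs_mul, abs_of_nonneg (PF_nonneg Fc hF x S)]
      exact mul_le_of_le_one_right (abs_nonneg _) (PF_le Fc hF x S)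
    · rw [abs_mul, abs_of_nonneg (hF y u).1]
      refine le_trans ?_ ih
      exact mul_le_of_le_one_left (abs_nonneg _) (hF y u).2

include hF in
theorem prod_low (x : X) (S : Multiset X) :
    1 - (S.map fun u => 1 - Fc x u).sum ≤ PF Fc x S := by
  induction S using Multiset.induction_on with
  | empty => simp [PF]
  | cons u S ih =>
    have e1 : PF Fc x (u ::ₘ S) = Fc x u * PF Fc x S := by
      unfold PF; rw [Multiset.map_cons, Multiset.prod_cons]
    rw [e1, Multiset.map_cons, Multiset.sum_cons]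
    have h1 := PF_le Fc hF x S
    have h2 := (hF x u)
    nlinarith

theorem sum_nonneg' (f : X → ℝ) (hf : ∀ x, 0 ≤ f x) (S : Multiset X) : 0 ≤ (S.map f).sum := by
  induction S using Multiset.induction_on with
  | empty => simp
  | cons u S ih =>
    rw [Multiset.map_cons, Multiset.sum_cons]
    exact add_nonneg (hf u) ih

theorem ofReal_sum (f : X → ℝ) (hf : ∀ x, 0 ≤ f x) (S : Multiset X) :
    ENNReal.ofReal (S.map f).sum = (S.map fun x => ENNReal.ofReal (f x)).sum := by
  induction S using Multiset.induction_on with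
  | empty => simp
  | cons u S ih =>
    rw [Multiset.map_cons, Multiset.sum_cons, Multiset.map_cons, Multiset.sum_cons,
      ENNReal.ofReal_add (hf u) (sum_nonneg' f hf S), ih]

end alg

section meas
variable {X : Type} [MeasurableSpace X] (Fc : X → X → ℝ) (z : ℝ) (hs : ∀ x y, Fc x y = Fc y x)

theorem al_meas (hm : Measurable (fun p : X × X => Fc p.1 p.2)) (N : ℕ) :
    Measurable (fun x : Fin N → X => al Fc z (List.ofFn x)) := by
  induction N with
  | zero =>
    have : (fun x : Fin 0 → X => al Fc z (List.ofFn x)) = fun _ => 1 := by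
      funext x
      rw [List.ofFn_zero]
      rfl
    rw [this]
    exact measurable_const
  | succ N ih =>
    have e : (fun x : Fin (N + 1) → X => al Fc z (List.ofFn x)) = fun x =>
        √z * (∏ i : Fin N, Fc (x 0) (x i.succ)) * al Fc z (List.ofFn fun i : Fin N => x i.succ) := by
      funext x
      rw [List.ofFn_succ]
      simp only [al]
      rw [List.map_ofFn, List.prod_ofFn]
      rfl
    rw [e]
    refine (Measurable.const_mul ?_ _).mul ?_
    · refine Finset.measurable_prod _ fun i _ => ?_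
      have h2 : Measurable (fun x : Fin (N + 1) → X => (x 0, x i.succ)) :=
        (measurable_pi_apply 0).prodMk (measurable_pi_apply i.succ)
      exact hm.comp h2
    · exact ih.comp (measurable_pi_lambda _ fun i => measurable_pi_apply i.succ)

theorem am_meas (hm : Measurable (fun p : X × X => Fc p.1 p.2)) :
    Measurable (fun γ : Cf X => am Fc z hs (ms γ)) := by
  refine Pool.Agent.W366.CB.meas_of fun N => ?_
  exact al_meas Fc z hm N

end meas

theorem jas : S_JAS := by
  intro X _ ν _ Fc z hz hm hF hs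
  have hMS : S_MS := Pool.Agent.W975.CB.proof_ms
  have hLAM : S_LAM := Pool.Agent.W366.CB.proof_lam hMS
  have hMEC : S_MECKE := Pool.Agent.W337.CB.proof_mecke hMS hLAM
  obtain ⟨mcs, -, -, m4, m5, -, -⟩ := hMS X
  obtain ⟨sec, -, lexp, -, -, -⟩ := hLAM X ν
  have mecke := hMEC X ν
  have ham : Measurable (fun γ : Cf X => am Fc z hs (ms γ)) := am_meas Fc z hs hm
  have ha0 : ∀ S, 0 ≤ am Fc z hs S := am_nonneg Fc z hs hF
  -- the partition function
  set Ξ : ℝ≥0∞ := ∫⁻ γ, ENNReal.ofReal (am Fc z hs (ms γ) ^ 2) ∂(lam ν) with hΞ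
  have hΞtop : Ξ ≠ ⊤ := by
    have h1 : Ξ ≤ ∫⁻ γ, ENNReal.ofReal (1 * z ^ Multiset.card (ms γ)) ∂(lam ν) := by
      refine lintegral_mono fun γ => ENNReal.ofReal_le_ofReal ?_
      rw [one_mul]
      calc am Fc z hs (ms γ) ^ 2 ≤ (√z ^ Multiset.card (ms γ)) ^ 2 :=
            pow_le_pow_left₀ (ha0 _) (am_le Fc z hs hF _) 2
        _ = z ^ Multiset.card (ms γ) := by
            rw [← pow_mul, mul_comm, pow_mul, Real.sq_sqrt hz.le]
    rw [lexp 1 z zero_le_one hz.le] at h1
    exact ne_top_of_le_ne_top ENNReal.ofReal_ne_top h1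
  have hΞpos : Ξ ≠ 0 := by
    rw [hΞ, sec _ (ham.pow_const 2).ennreal_ofReal]
    intro h0
    have h1 := ENNReal.tsum_eq_zero.1 h0 0
    have h2 : ∀ x : Fin 0 → X, ENNReal.ofReal (am Fc z hs (ms (⟨0, x⟩ : Cf X)) ^ 2) = 1 := by
      intro x
      have : ms (⟨0, x⟩ : Cf X) = 0 := by
        unfold ms
        simp
      rw [this, am_zero]
      simp
    simp only [h2] at h1
    rw [lintegral_const, Measure.pi_univ] at h1
    simp at h1
  set Z : ℝ := Ξ.toReal with hZ
  have hZpos : 0 < Z := ENNReal.toReal_pos hΞpos hΞtop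
  have hZΞ : ENNReal.ofReal Z = Ξ := ENNReal.ofReal_toReal hΞtop
  let φ : Multiset X → ℂ := fun S => ((am Fc z hs S / √Z : ℝ) : ℂ)
  -- the weight
  let w : Multiset X → ℝ≥0∞ := fun S => ENNReal.ofReal (am Fc z hs S ^ 2 / Z)
  have hw : Measurable (fun γ : Cf X => w (ms γ)) :=
    ((ham.pow_const 2).div_const Z).ennreal_ofReal
  have hφw : ∀ S, ‖φ S‖ₑ ^ 2 = w S := by
    intro S
    simp only [φ, w]
    rw [← ofReal_norm, ← ENNReal.ofReal_pow (norm_nonneg _), Complex.norm_real,
      Real.norm_eq_abs, sq_abs, div_pow, Real.sq_sqrt hZpos.le]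
  have hw1 : ∫⁻ γ, w (ms γ) ∂(lam ν) = 1 := by
    have h1 : ∀ S, w S = ENNReal.ofReal (am Fc z hs S ^ 2) * (ENNReal.ofReal Z)⁻¹ := by
      intro S
      simp only [w]
      rw [ENNReal.ofReal_div_of_pos hZpos]
      rfl
    simp only [h1]
    rw [lintegral_mul_const _ (ham.pow_const 2).ennreal_ofReal, ← hΞ, hZΞ]
    exact ENNReal.mul_inv_cancel hΞpos hΞtop
  have hP2 : ∀ x S, PF Fc x S ^ 2 ≤ 1 := fun x S =>
    pow_le_one₀ (PF_nonneg Fc hF x S) (PF_le Fc hF x S)
  have hwcons : ∀ x S, w (x ::ₘ S) = ENNReal.ofReal z * (ENNReal.ofReal (PF Fc x S ^ 2) * w S) := by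
    intro x S
    simp only [w]
    rw [am_cons, ← ENNReal.ofReal_mul (sq_nonneg _), ← ENNReal.ofReal_mul hz.le]
    congr 1
    rw [mul_pow, mul_pow, Real.sq_sqrt hz.le]
    ring
  have hwle : ∀ x S, w (x ::ₘ S) ≤ ENNReal.ofReal z * w S := by
    intro x S
    rw [hwcons]
    refine mul_le_mul_right ?_ _
    calc ENNReal.ofReal (PF Fc x S ^ 2) * w S ≤ 1 * w S := by
          refine mul_le_mul_left ?_ _
          exact ENNReal.ofReal_le_one.2 (hP2 x S)
      _ = w S := one_mul _
  -- first moments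
  have hmom : ∀ h : X → ℝ≥0∞, Measurable h →
      ∫⁻ γ, ((ms γ).map h).sum * w (ms γ) ∂(lam ν) ≤ ENNReal.ofReal z * ∫⁻ u, h u ∂ν := by
    intro h hh
    have e1 : ∀ γ : Cf X, ((ms γ).map h).sum * w (ms γ) =
        ((ms γ).map fun x => h x * w (ms γ)).sum := by
      intro γ
      rw [Multiset.sum_map_mul_right]
    simp only [e1]
    rw [mecke (fun x S => h x * w S)
      ((hh.comp measurable_fst).mul (hw.comp measurable_snd))]
    calc ∫⁻ x, ∫⁻ γ, h x * w (x ::ₘ ms γ) ∂(lam ν) ∂ν
        ≤ ∫⁻ x, ∫⁻ γ, h x * (ENNReal.ofReal z * w (ms γ)) ∂(lam ν) ∂ν :=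
          lintegral_mono fun x => lintegral_mono fun γ => mul_le_mul_right (hwle x _) _
      _ = ∫⁻ x, h x * ENNReal.ofReal z ∂ν := by
          refine lintegral_congr fun x => ?_
          rw [lintegral_const_mul _ (hw.const_mul _), lintegral_const_mul _ hw, hw1, mul_one]
      _ = ENNReal.ofReal z * ∫⁻ u, h u ∂ν := by
          rw [lintegral_mul_const _ hh, mul_comm]
  -- second moments
  have hmom2 : ∀ h : X → ℝ≥0∞, Measurable h →
      ∫⁻ γ, ((ms γ).map h).sum ^ 2 * w (ms γ) ∂(lam ν) ≤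
        ENNReal.ofReal z * ∫⁻ u, h u ^ 2 ∂ν + ENNReal.ofReal z ^ 2 * (∫⁻ u, h u ∂ν) ^ 2 := by
    intro h hh
    have mS : Measurable (fun γ : Cf X => ((ms γ).map h).sum) := by
      have h1 := m5 Unit (fun _ => h) (hh.comp measurable_snd)
      exact h1.comp (measurable_prodMk_left (x := ()))
    have mSw : Measurable (fun γ : Cf X => ((ms γ).map h).sum * w (ms γ)) := mS.mul hw
    have e1 : ∀ γ : Cf X, ((ms γ).map h).sum ^ 2 * w (ms γ) =
        ((ms γ).map fun x => h x * (((ms γ).map h).sum * w (ms γ))).sum := by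
      intro γ
      rw [Multiset.sum_map_mul_right]
      ring
    simp only [e1]
    rw [mecke (fun x S => h x * ((S.map h).sum * w S))
      ((hh.comp measurable_fst).mul ((mS.comp measurable_snd).mul (hw.comp measurable_snd)))]
    calc ∫⁻ x, ∫⁻ γ, h x * (((x ::ₘ ms γ).map h).sum * w (x ::ₘ ms γ)) ∂(lam ν) ∂ν
        ≤ ∫⁻ x, ∫⁻ γ, h x * ((h x + ((ms γ).map h).sum) * (ENNReal.ofReal z * w (ms γ)))
            ∂(lam ν) ∂ν := by
          refine lintegral_mono fun x => lintegral_mono fun γ => ?_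
          rw [Multiset.map_cons, Multiset.sum_cons]
          exact mul_le_mul_right (mul_le_mul_right (hwle x _) _) _
      _ ≤ ∫⁻ x, (ENNReal.ofReal z * h x ^ 2 +
            h x * (ENNReal.ofReal z ^ 2 * ∫⁻ u, h u ∂ν)) ∂ν := by
          refine lintegral_mono fun x => ?_
          have e2 : ∀ γ : Cf X, h x * ((h x + ((ms γ).map h).sum) *
              (ENNReal.ofReal z * w (ms γ))) = ENNReal.ofReal z * h x ^ 2 * w (ms γ) +
              h x * ENNReal.ofReal z * (((ms γ).map h).sum * w (ms γ)) := by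
            intro γ; ring
          simp only [e2]
          rw [lintegral_add_left (hw.const_mul _), lintegral_const_mul _ hw, hw1, mul_one,
            lintegral_const_mul _ mSw]
          refine add_le_add le_rfl ?_
          calc h x * ENNReal.ofReal z * ∫⁻ γ, ((ms γ).map h).sum * w (ms γ) ∂(lam ν)
              ≤ h x * ENNReal.ofReal z * (ENNReal.ofReal z * ∫⁻ u, h u ∂ν) :=
                mul_le_mul_right (hmom h hh) _
            _ = h x * (ENNReal.ofReal z ^ 2 * ∫⁻ u, h u ∂ν) := by ring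
      _ = ENNReal.ofReal z * ∫⁻ u, h u ^ 2 ∂ν + ENNReal.ofReal z ^ 2 * (∫⁻ u, h u ∂ν) ^ 2 := by
          rw [lintegral_add_left ((hh.pow_const 2).const_mul _),
            lintegral_const_mul _ (hh.pow_const 2), lintegral_mul_const _ hh]
          ring
  have hφEB : EB φ := by
    refine ⟨?_, 1 / √Z, max 1 √z, by positivity, le_max_left _ _, fun S => ?_⟩
    · exact Complex.measurable_ofReal.comp (ham.div_const _)
    · simp only [φ]
      rw [Complex.norm_real, Real.norm_eq_abs, abs_of_nonneg (div_nonneg (ha0 S) (Real.sqrt_nonneg _)),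
        div_eq_mul_inv, mul_comm, one_div]
      refine mul_le_mul_of_nonneg_left ?_ (by positivity)
      exact (am_le Fc z hs hF S).trans
        (pow_le_pow_left₀ (Real.sqrt_nonneg z) (le_max_right _ _) _)
  have hFm : ∀ x, Measurable (Fc x) := fun x => hm.comp measurable_prodMk_left
  have mP : ∀ x, Measurable (fun γ : Cf X => ENNReal.ofReal (PF Fc x (ms γ) ^ 2)) := by
    intro x
    refine Measurable.ennreal_ofReal (Measurable.pow_const ?_ 2)
    refine Pool.Agent.W366.CB.meas_of fun N => ?_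
    have e : (fun y : Fin N → X => PF Fc x (ms (⟨N, y⟩ : Cf X))) = fun y => ∏ i, Fc x (y i) := by
      funext y
      unfold PF ms
      rw [Multiset.map_coe, Multiset.prod_coe, List.map_ofFn, List.prod_ofFn]
      rfl
    rw [e]
    exact Finset.measurable_prod _ fun i _ => (hFm x).comp (measurable_pi_apply i)
  have mPw : ∀ x, Measurable (fun γ : Cf X => ENNReal.ofReal (PF Fc x (ms γ) ^ 2) * w (ms γ)) :=
    fun x => (mP x).mul hw
  have hnx : ∀ x, nE ν (an x φ) = ENNReal.ofReal z *
      ∫⁻ γ, ENNReal.ofReal (PF Fc x (ms γ) ^ 2) * w (ms γ) ∂(lam ν) := by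
    intro x
    unfold nE an
    simp only [hφw, hwcons]
    rw [lintegral_const_mul _ (mPw x)]
  refine ⟨φ, hφEB, ?_, fun x y => ?_, fun x y => ?_, fun x => ?_, fun x => ?_⟩
  · unfold nE
    simp only [hφw]
    exact hw1
  · -- the kinetic energy
    have h1 : ∀ S, ‖φ (x ::ₘ S) - φ (y ::ₘ S)‖ₑ ^ 2 ≤
        ENNReal.ofReal z * ((S.map fun u => ENNReal.ofReal |Fc x u - Fc y u|).sum ^ 2 * w S) := by
      intro S
      simp only [φ, w]
      rw [am_cons, am_cons, ← Complex.ofReal_sub, ← ofReal_norm,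
        ← ENNReal.ofReal_pow (norm_nonneg _), Complex.norm_real, Real.norm_eq_abs, sq_abs,
        ← ofReal_sum _ (fun u => abs_nonneg _), ← ENNReal.ofReal_pow (sum_nonneg' _
          (fun u => abs_nonneg _) S), ← ENNReal.ofReal_mul (by positivity),
        ← ENNReal.ofReal_mul hz.le]
      apply ENNReal.ofReal_le_ofReal
      have e1 : (√z * PF Fc x S * am Fc z hs S / √Z - √z * PF Fc y S * am Fc z hs S / √Z) ^ 2 =
          z * ((PF Fc x S - PF Fc y S) ^ 2 * (am Fc z hs S ^ 2 / Z)) := by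
        have e2 : √z ^ 2 = z := Real.sq_sqrt hz.le
        have e3 : √Z ^ 2 = Z := Real.sq_sqrt hZpos.le
        have e4 : √Z ≠ 0 := (Real.sqrt_pos.2 hZpos).ne'
        rw [← sub_div, div_pow, e3]
        rw [show (√z * PF Fc x S * am Fc z hs S - √z * PF Fc y S * am Fc z hs S) ^ 2 =
          √z ^ 2 * ((PF Fc x S - PF Fc y S) ^ 2 * am Fc z hs S ^ 2) by ring, e2]
        ring
      rw [e1]
      refine mul_le_mul_of_nonneg_left ?_ hz.le
      refine mul_le_mul_of_nonneg_right ?_ (by positivity)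
      rw [← sq_abs (PF Fc x S - PF Fc y S)]
      exact pow_le_pow_left₀ (abs_nonneg _) (prod_diff Fc hF x y S) 2
    have hD : Measurable (fun u => ENNReal.ofReal |Fc x u - Fc y u|) :=
      (((hFm x).sub (hFm y)).abs).ennreal_ofReal
    have mS : Measurable (fun γ : Cf X =>
        ((ms γ).map fun u => ENNReal.ofReal |Fc x u - Fc y u|).sum) := by
      have h1 := m5 Unit (fun _ u => ENNReal.ofReal |Fc x u - Fc y u|) (hD.comp measurable_snd)
      exact h1.comp (measurable_prodMk_left (x := ()))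
    have mSw : Measurable (fun γ : Cf X =>
        ((ms γ).map fun u => ENNReal.ofReal |Fc x u - Fc y u|).sum ^ 2 * w (ms γ)) :=
      (mS.pow_const 2).mul hw
    unfold dE nE
    calc ∫⁻ γ, ‖φ (x ::ₘ ms γ) - φ (y ::ₘ ms γ)‖ₑ ^ 2 ∂(lam ν)
        ≤ ∫⁻ γ, ENNReal.ofReal z * (((ms γ).map fun u =>
            ENNReal.ofReal |Fc x u - Fc y u|).sum ^ 2 * w (ms γ)) ∂(lam ν) :=
          lintegral_mono fun γ => h1 (ms γ)
      _ = ENNReal.ofReal z * ∫⁻ γ, ((ms γ).map fun u =>
            ENNReal.ofReal |Fc x u - Fc y u|).sum ^ 2 * w (ms γ) ∂(lam ν) := by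
          rw [lintegral_const_mul _ mSw]
      _ ≤ ENNReal.ofReal z * (ENNReal.ofReal z * ∫⁻ u, ENNReal.ofReal |Fc x u - Fc y u| ^ 2 ∂ν +
            ENNReal.ofReal z ^ 2 * (∫⁻ u, ENNReal.ofReal |Fc x u - Fc y u| ∂ν) ^ 2) :=
          mul_le_mul_right (hmom2 _ hD) _
      _ = _ := by
          have e1 : ∀ u, ENNReal.ofReal |Fc x u - Fc y u| ^ 2 =
              ENNReal.ofReal ((Fc x u - Fc y u) ^ 2) := by
            intro u
            rw [← ENNReal.ofReal_pow (abs_nonneg _), sq_abs]
          simp only [e1]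
          rw [ENNReal.ofReal_pow hz.le, ENNReal.ofReal_pow hz.le]
          ring
  · -- two particles
    have h1 : ∀ S, w (x ::ₘ y ::ₘ S) ≤ ENNReal.ofReal (z ^ 2 * Fc x y ^ 2) * w S := by
      intro S
      rw [hwcons]
      have e1 : PF Fc x (y ::ₘ S) = Fc x y * PF Fc x S := by
        unfold PF; rw [Multiset.map_cons, Multiset.prod_cons]
      rw [e1, mul_pow, ENNReal.ofReal_mul (sq_nonneg _)]
      calc ENNReal.ofReal z * (ENNReal.ofReal (Fc x y ^ 2) * ENNReal.ofReal (PF Fc x S ^ 2) *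
            w (y ::ₘ S))
          ≤ ENNReal.ofReal z * (ENNReal.ofReal (Fc x y ^ 2) * 1 * (ENNReal.ofReal z * w S)) := by
            refine mul_le_mul_right (mul_le_mul' (mul_le_mul_right ?_ _) (hwle y S)) _
            exact ENNReal.ofReal_le_one.2 (hP2 x S)
        _ = ENNReal.ofReal (z ^ 2 * Fc x y ^ 2) * w S := by
            rw [ENNReal.ofReal_mul (sq_nonneg _), ENNReal.ofReal_pow hz.le]
            ring
    unfold nE an
    simp only [hφw]
    calc ∫⁻ γ, w (x ::ₘ y ::ₘ ms γ) ∂(lam ν)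
        ≤ ∫⁻ γ, ENNReal.ofReal (z ^ 2 * Fc x y ^ 2) * w (ms γ) ∂(lam ν) :=
          lintegral_mono fun γ => h1 (ms γ)
      _ = ENNReal.ofReal (z ^ 2 * Fc x y ^ 2) := by
          rw [lintegral_const_mul _ hw, hw1, mul_one]
  · -- lower bound
    have hD : Measurable (fun u => ENNReal.ofReal (1 - Fc x u)) :=
      (measurable_const.sub (hFm x)).ennreal_ofReal
    have mS : Measurable (fun γ : Cf X =>
        ((ms γ).map fun u => ENNReal.ofReal (1 - Fc x u)).sum) := by
      have h1 := m5 Unit (fun _ u => ENNReal.ofReal (1 - Fc x u)) (hD.comp measurable_snd)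
      exact h1.comp (measurable_prodMk_left (x := ()))
    have mSw : Measurable (fun γ : Cf X =>
        ((ms γ).map fun u => ENNReal.ofReal (1 - Fc x u)).sum * w (ms γ)) := mS.mul hw
    have h1 : ∀ S : Multiset X, (1 : ℝ≥0∞) ≤ ENNReal.ofReal (PF Fc x S ^ 2) +
        2 * (S.map fun u => ENNReal.ofReal (1 - Fc x u)).sum := by
      intro S
      have h0 : ∀ u, 0 ≤ 1 - Fc x u := fun u => by linarith [(hF x u).2]
      rw [← ofReal_sum _ h0]
      have e2 : (2 : ℝ≥0∞) = ENNReal.ofReal 2 := by simp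
      rw [e2, ← ENNReal.ofReal_mul (by norm_num), ← ENNReal.ofReal_add (sq_nonneg _)
        (mul_nonneg (by norm_num) (sum_nonneg' _ h0 S)), ← ENNReal.ofReal_one]
      apply ENNReal.ofReal_le_ofReal
      have h2 := prod_low Fc hF x S
      nlinarith [sq_nonneg (PF Fc x S - 1)]
    have h2 : (1 : ℝ≥0∞) ≤ ∫⁻ γ, ENNReal.ofReal (PF Fc x (ms γ) ^ 2) * w (ms γ) ∂(lam ν) +
        2 * (ENNReal.ofReal z * ∫⁻ u, ENNReal.ofReal (1 - Fc x u) ∂ν) := by
      calc (1 : ℝ≥0∞) = ∫⁻ γ, w (ms γ) ∂(lam ν) := hw1.symm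
        _ ≤ ∫⁻ γ, (ENNReal.ofReal (PF Fc x (ms γ) ^ 2) * w (ms γ) +
              2 * (((ms γ).map fun u => ENNReal.ofReal (1 - Fc x u)).sum * w (ms γ))) ∂(lam ν) := by
            refine lintegral_mono fun γ => ?_
            calc w (ms γ) = 1 * w (ms γ) := (one_mul _).symm
              _ ≤ (ENNReal.ofReal (PF Fc x (ms γ) ^ 2) +
                  2 * ((ms γ).map fun u => ENNReal.ofReal (1 - Fc x u)).sum) * w (ms γ) :=
                  mul_le_mul_left (h1 _) _
              _ = _ := by ring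
        _ = ∫⁻ γ, ENNReal.ofReal (PF Fc x (ms γ) ^ 2) * w (ms γ) ∂(lam ν) +
              2 * ∫⁻ γ, ((ms γ).map fun u => ENNReal.ofReal (1 - Fc x u)).sum * w (ms γ)
                ∂(lam ν) := by
            rw [lintegral_add_left (mPw x), lintegral_const_mul _ mSw]
        _ ≤ _ := by
            refine add_le_add le_rfl (mul_le_mul_right (hmom _ hD) _)
    -- pass to real numbers
    have hint : ∫⁻ u, ENNReal.ofReal (1 - Fc x u) ∂ν = ENNReal.ofReal (∫ u, (1 - Fc x u) ∂ν) := by
      rw [ofReal_integral_eq_lintegral_ofReal]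
      · refine Integrable.mono' (integrable_const (1 : ℝ))
          (measurable_const.sub (hFm x)).aestronglyMeasurable (Filter.Eventually.of_forall fun u => ?_)
        rw [Real.norm_eq_abs, abs_le]
        constructor <;> linarith [(hF x u).1, (hF x u).2]
      · exact Filter.Eventually.of_forall fun u => by
          show 0 ≤ 1 - Fc x u
          linarith [(hF x u).2]
    have hH0 : 0 ≤ ∫ u, (1 - Fc x u) ∂ν := integral_nonneg fun u => by
      show 0 ≤ 1 - Fc x u
      linarith [(hF x u).2]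
    rw [hint] at h2
    rw [hnx x]
    set I : ℝ≥0∞ := ∫⁻ γ, ENNReal.ofReal (PF Fc x (ms γ) ^ 2) * w (ms γ) ∂(lam ν) with hI
    set H : ℝ := ∫ u, (1 - Fc x u) ∂ν with hH
    rw [ENNReal.ofReal_mul hz.le]
    refine mul_le_mul_right ?_ _
    have e2 : (2 : ℝ≥0∞) = ENNReal.ofReal 2 := by simp
    rw [e2, ← ENNReal.ofReal_mul hz.le, ← ENNReal.ofReal_mul (by norm_num)] at h2
    have e3 : 1 - 2 * z * H = 1 - 2 * (z * H) := by ring
    rw [e3, ENNReal.ofReal_sub _ (by positivity), ENNReal.ofReal_one]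
    exact tsub_le_iff_right.2 h2
  · rw [hnx x]
    calc ENNReal.ofReal z * ∫⁻ γ, ENNReal.ofReal (PF Fc x (ms γ) ^ 2) * w (ms γ) ∂(lam ν)
        ≤ ENNReal.ofReal z * ∫⁻ γ, w (ms γ) ∂(lam ν) := by
          refine mul_le_mul_right (lintegral_mono fun γ => ?_) _
          calc ENNReal.ofReal (PF Fc x (ms γ) ^ 2) * w (ms γ) ≤ 1 * w (ms γ) :=
                mul_le_mul_left (ENNReal.ofReal_le_one.2 (hP2 x _)) _
            _ = w (ms γ) := one_mul _
      _ = ENNReal.ofReal z := by rw [hw1, mul_one]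

end Pool.Agent.W216.CC
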